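import Mathlib
import Pool.Agent.MP_337e3e_al.Own

namespace Pool.Agent.Results.MP_337e3e_al.ClosedConj

open unitInterval Pool.Agent.MP_337e3e_al.Own

/-- Every finitely generated closed subgroup of Thompson's group `F` has decidable conjugacy
problem. -/
theorem result (H : Subgroup (I ≃ₜ I)) (hF : ∀ h ∈ H, InF h)
    (hcl : ∀ f : I ≃ₜ I, InF f → Piecewise H f → f ∈ H) (m : ℕ) (s : Fin m → H)
    (hs : Subgroup.closure (Set.range s) = ⊤) :
    ComputablePred fun p : List (Fin m × Bool) × List (Fin m × Bool) =>
      IsConj (evalWord s p.1) (evalWord s p.2) :=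
  conj_decidable H hF hcl m s hs

end Pool.Agent.Results.MP_337e3e_al.ClosedConj
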